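import Mathlib
import Pool.Agent.H16.IntersProof

set_option autoImplicit false

namespace Pool.Agent.Results.MP_5a03e9_nt.NotSyndetic

open Pool.Agent.H16.Inters

theorem result :
    ∀ E : Set ℕ, E.Infinite → 0 ∉ E → upperBanach E = 0 →
      ∃ A : Set ℕ, A ⊆ E ∧ 0 < relUpper E A ∧ ¬ Syndetic (diffSet A) :=
  fun E hE _ h => not_syndetic E hE h

end Pool.Agent.Results.MP_5a03e9_nt.NotSyndetic
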